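import Mathlib

namespace Pool.Agent.Results.MP_4cc686_gt.OpenImage

open Set Filter Topology
open scoped Classical OnePoint

/-- `C_p(X)`: continuous real functions with the topology of pointwise convergence. -/
abbrev Cp (X : Type) [TopologicalSpace X] : Type := {f : X → ℝ // Continuous f}

/-- Density: least cardinality of a dense subset. -/
noncomputable def dens (Z : Type) [TopologicalSpace Z] : Cardinal.{0} :=
  sInf {c | ∃ D : Set Z, Dense D ∧ Cardinal.mk D = c}

/-- Hereditary density, taken to be infinite. -/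
noncomputable def hd (X : Type) [TopologicalSpace X] : Cardinal.{0} :=
  max Cardinal.aleph0 (⨆ A : Set X, dens A)

structure XX where
  x : ℝ
  b : Bool

noncomputable def e (p : XX) (t : ℝ) : ℝ := if t < p.x ∨ (t = p.x ∧ p.b = true) then 1 else 0

noncomputable instance topX : TopologicalSpace XX := TopologicalSpace.induced e inferInstance

lemma e_cont (t : ℝ) : Continuous fun p => e p t :=
  (continuous_apply t).comp (continuous_induced_dom (f := e))

lemma e_lt {p : XX} {t : ℝ} (h : t < p.x) : e p t = 1 := by simp [e, h]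

lemma e_gt {p : XX} {t : ℝ} (h : p.x < t) : e p t = 0 := by
  have h1 : ¬ t < p.x := not_lt.mpr h.le
  have h2 : t ≠ p.x := h.ne'
  simp [e, h1, h2]

lemma e_true (x : ℝ) : e ⟨x, true⟩ x = 1 := by simp [e]

lemma e_false (x : ℝ) : e ⟨x, false⟩ x = 0 := by simp [e]

lemma e_ne {x t : ℝ} (h : t ≠ x) : e ⟨x, true⟩ t = e ⟨x, false⟩ t := by simp [e, h]

lemma e_inj : Function.Injective e := by
  rintro ⟨x, b⟩ ⟨y, c⟩ h
  have hxy : x = y := by
    by_contra hne
    rcases lt_or_gt_of_ne hne with h1 | h1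
    · have := congrFun h ((x + y) / 2)
      rw [e_gt (by simp only; linarith), e_lt (by simp only; linarith)] at this
      norm_num at this
    · have := congrFun h ((x + y) / 2)
      rw [e_lt (by simp only; linarith), e_gt (by simp only; linarith)] at this
      norm_num at this
  subst hxy
  have := congrFun h x
  cases b <;> cases c <;> simp [e] at this ⊢

lemma t35X : T35Space XX := Topology.IsEmbedding.t35Space (f := e) ⟨⟨rfl⟩, e_inj⟩

lemma x_cont : Continuous XX.x := by
  rw [continuous_iff_continuousAt]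
  intro p
  rw [ContinuousAt, Metric.tendsto_nhds]
  intro ε hε
  have h1 : ∀ᶠ q in 𝓝 p, 1 / 2 < e q (p.x - ε / 2) :=
    (e_cont _).continuousAt.eventually (lt_mem_nhds (by
      show 1 / 2 < e p (p.x - ε / 2)
      rw [e_lt (by linarith)]; norm_num))
  have h2 : ∀ᶠ q in 𝓝 p, e q (p.x + ε / 2) < 1 / 2 :=
    (e_cont _).continuousAt.eventually (gt_mem_nhds (by
      show e p (p.x + ε / 2) < 1 / 2
      rw [e_gt (by linarith)]; norm_num))
  filter_upwards [h1, h2] with q h1 h2
  rw [Real.dist_eq, abs_lt]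
  constructor
  · by_contra h
    rw [e_gt (by linarith)] at h1
    norm_num at h1
  · by_contra h
    rw [e_lt (by linarith)] at h2
    norm_num at h2

lemma tend_right (x : ℝ) (β : ℝ → Bool) :
    Tendsto (fun y => (⟨y, β y⟩ : XX)) (𝓝[>] x) (𝓝 ⟨x, true⟩) := by
  rw [nhds_induced, tendsto_comap_iff, tendsto_pi_nhds]
  intro t
  refine tendsto_const_nhds.congr' ?_
  rcases lt_or_ge x t with h | h
  · filter_upwards [Ioo_mem_nhdsGT h] with y hy
    rw [e_gt h]
    exact (e_gt hy.2).symm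
  · filter_upwards [self_mem_nhdsWithin] with y hy
    have h1 : e ⟨x, true⟩ t = 1 := by
      rcases h.eq_or_lt with h | h
      · rw [h, e_true]
      · exact e_lt h
    rw [h1]
    exact (e_lt (p := ⟨y, β y⟩) (lt_of_le_of_lt h hy)).symm

lemma tend_left (x : ℝ) (β : ℝ → Bool) :
    Tendsto (fun y => (⟨y, β y⟩ : XX)) (𝓝[<] x) (𝓝 ⟨x, false⟩) := by
  rw [nhds_induced, tendsto_comap_iff, tendsto_pi_nhds]
  intro t
  refine tendsto_const_nhds.congr' ?_
  rcases lt_or_ge t x with h | h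
  · filter_upwards [Ioo_mem_nhdsLT h] with y hy
    rw [e_lt h]
    exact (e_lt hy.1).symm
  · filter_upwards [self_mem_nhdsWithin] with y hy
    have h1 : e ⟨x, false⟩ t = 0 := by
      rcases h.eq_or_lt with h | h
      · rw [← h, e_false]
      · exact e_gt h
    rw [h1]
    exact (e_gt (p := ⟨y, β y⟩) (lt_of_lt_of_le hy h)).symm

def jump (f : XX → ℝ) (y : ℝ) : ℝ := f ⟨y, true⟩ - f ⟨y, false⟩

lemma jump_small (f : XX → ℝ) (hf : Continuous f) (x : ℝ) : Tendsto (jump f) (𝓝[≠] x) (𝓝 0) := by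
  rw [← nhdsLT_sup_nhdsGT, tendsto_sup]
  constructor
  · have h1 := (hf.tendsto _).comp (tend_left x fun _ => true)
    have h2 := (hf.tendsto _).comp (tend_left x fun _ => false)
    have := h1.sub h2
    rw [sub_self] at this
    exact this
  · have h1 := (hf.tendsto _).comp (tend_right x fun _ => true)
    have h2 := (hf.tendsto _).comp (tend_right x fun _ => false)
    have := h1.sub h2
    rw [sub_self] at this
    exact this

lemma jump_fin (f : XX → ℝ) (hf : Continuous f) (ε : ℝ) (hε : 0 < ε) :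
    {y | y ∈ Icc (0:ℝ) 1 ∧ ε ≤ |jump f y|}.Finite := by
  by_contra h
  obtain ⟨x, _, hx⟩ := Set.Infinite.exists_accPt_of_subset_isCompact h isCompact_Icc
    (fun y hy => hy.1)
  have h1 := (Metric.tendsto_nhds.mp (jump_small f hf x)) ε hε
  rw [accPt_iff_frequently_nhdsNE] at hx
  obtain ⟨y, hy1, hy2⟩ := (hx.and_eventually h1).exists
  rw [Real.dist_eq, sub_zero] at hy2
  linarith [hy1.2]

lemma fin_jump (F : Finset ℝ) (h : ℝ → ℝ) (M : ℝ) (hM : 0 ≤ M) (hh : ∀ x ∈ F, |h x| ≤ M) :
    ∃ g : XX → ℝ, Continuous g ∧ (∀ p, |g p| ≤ M) ∧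
      ∀ y, jump g y = if y ∈ F then h y else 0 := by
  set g0 : XX → ℝ := fun p => ∑ x ∈ F, h x * e p x * (Lagrange.basis F id x).eval p.x with hg0
  have hc : Continuous g0 := by
    refine continuous_finsetSum _ fun x _ => ?_
    exact (continuous_const.mul (e_cont x)).mul ((Polynomial.continuous _).comp x_cont)
  have hv : ∀ y ∈ F, ∀ b, g0 ⟨y, b⟩ = h y * e ⟨y, b⟩ y := by
    intro y hy b
    rw [hg0]
    simp only
    rw [Finset.sum_eq_single y]
    · have := Lagrange.eval_basis_self (s := F) (v := id) (i := y) (fun _ _ _ _ h => h) hy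
      simp only [id] at this
      rw [this, mul_one]
    · intro x _ hx
      have := Lagrange.eval_basis_of_ne (s := F) (v := (id : ℝ → ℝ)) hx hy
      simp only [id] at this
      rw [this, mul_zero]
    · intro h; exact absurd hy h
  refine ⟨fun p => max (-M) (min M (g0 p)), continuous_const.max (continuous_const.min hc),
    fun p => ?_, fun y => ?_⟩
  · rw [abs_le]
    exact ⟨le_max_left _ _, max_le (by linarith) (min_le_left _ _)⟩
  · simp only [jump]
    split_ifs with hy
    · rw [hv y hy, hv y hy, e_true, e_false, mul_one, mul_zero]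
      have := abs_le.mp (hh y hy)
      rw [min_eq_right this.2, max_eq_right this.1, min_eq_right hM, max_eq_right (by linarith),
        sub_zero]
    · have : g0 ⟨y, true⟩ = g0 ⟨y, false⟩ := by
        refine Finset.sum_congr rfl fun x hx => ?_
        rw [e_ne (fun hxy : x = y => hy (hxy ▸ hx))]
      rw [this, sub_self]

lemma c0_jump (h : ℝ → ℝ) (hh : ∀ ε > 0, {y | ε ≤ |h y|}.Finite) :
    ∃ g : XX → ℝ, Continuous g ∧ ∀ y, jump g y = h y := by
  have hF0 : {y | 1 < |h y|}.Finite := (hh 1 one_pos).subset fun y hy => le_of_lt (a := 1) (b := |h y|) hy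
  have hF : ∀ k : ℕ, {y | (1 / 2 : ℝ) ^ (k + 1) < |h y| ∧ |h y| ≤ (1 / 2) ^ k}.Finite :=
    fun k => (hh _ (by positivity)).subset fun y hy => le_of_lt hy.1
  obtain ⟨g0, hg0, _, hj0⟩ := fin_jump hF0.toFinset h (∑ x ∈ hF0.toFinset, |h x|)
    (Finset.sum_nonneg fun _ _ => abs_nonneg _)
    (fun x hx => Finset.single_le_sum (f := fun x => |h x|) (fun _ _ => abs_nonneg _) hx)
  have := fun k : ℕ => fin_jump (hF k).toFinset h ((1 / 2) ^ k) (by positivity)
    (fun x hx => ((Set.Finite.mem_toFinset _).mp hx).2)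
  choose g hg hb hj using this
  have hs : ∀ p, Summable fun k => g k p := fun p =>
    Summable.of_norm_bounded summable_geometric_two (fun k => hb k p)
  refine ⟨fun p => g0 p + ∑' k, g k p,
    hg0.add (continuous_tsum hg summable_geometric_two (fun k p => hb k p)), fun y => ?_⟩
  have h1 : jump (fun p => g0 p + ∑' k, g k p) y = jump g0 y + ∑' k, jump (g k) y := by
    simp only [jump]
    rw [Summable.tsum_sub (hs _) (hs _)]
    ring
  rw [h1, hj0]
  simp only [hj, Set.Finite.mem_toFinset, Set.mem_ofPred_eq]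
  by_cases h2 : 1 < |h y|
  · rw [if_pos h2]
    have : ∀ k : ℕ, (if (1 / 2 : ℝ) ^ (k + 1) < |h y| ∧ |h y| ≤ (1 / 2) ^ k then h y else 0) = 0 := by
      intro k
      rw [if_neg]
      rintro ⟨_, h3⟩
      have : (1 / 2 : ℝ) ^ k ≤ 1 := pow_le_one₀ (by norm_num) (by norm_num)
      linarith
    simp only [this, tsum_zero, add_zero]
  · rw [if_neg h2, zero_add]
    by_cases h0 : h y = 0
    · simp [h0]
    · obtain ⟨n, hn1, hn2⟩ := exists_nat_pow_near_of_lt_one (abs_pos.mpr h0) (not_lt.mp h2)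
        (by norm_num : (0:ℝ) < 1 / 2) (by norm_num)
      rw [tsum_eq_single n, if_pos ⟨hn1, hn2⟩]
      intro k hk
      rw [if_neg]
      rintro ⟨h3, h4⟩
      rcases lt_or_gt_of_ne hk with h5 | h5
      · have : (1 / 2 : ℝ) ^ n ≤ (1 / 2) ^ (k + 1) :=
          pow_le_pow_of_le_one (by norm_num) (by norm_num) h5
        linarith
      · have : (1 / 2 : ℝ) ^ k ≤ (1 / 2) ^ (n + 1) :=
          pow_le_pow_of_le_one (by norm_num) (by norm_num) h5
        linarith

structure DD where
  v : ℝ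
  hv : v ∈ Icc (0:ℝ) 1

instance topD : TopologicalSpace DD := ⊥

instance discD : DiscreteTopology DD := ⟨rfl⟩

lemma v_inj : Function.Injective DD.v := by
  rintro ⟨a, ha⟩ ⟨b, hb⟩ h
  simp only at h
  subst h
  rfl

noncomputable def ph (f : XX → ℝ) : OnePoint DD → ℝ :=
  OnePoint.rec (C := fun _ => ℝ) (f ⟨0, false⟩) (fun d : DD => jump f d.v + f ⟨0, false⟩)

lemma ph_inf (f : XX → ℝ) : ph f ∞ = f ⟨0, false⟩ := rfl

lemma ph_coe (f : XX → ℝ) (d : DD) : ph f d = jump f d.v + f ⟨0, false⟩ := rfl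

lemma ph_cont (f : XX → ℝ) (hf : Continuous f) : Continuous (ph f) := by
  rw [OnePoint.continuous_iff_from_discrete, Metric.tendsto_nhds]
  intro ε hε
  rw [Filter.eventually_cofinite]
  refine ((jump_fin f hf ε hε).preimage (f := DD.v) v_inj.injOn).subset ?_
  intro d hd
  simp only [Set.mem_ofPred_eq, ph_inf, ph_coe, Real.dist_eq, add_sub_cancel_right, not_lt] at hd
  exact ⟨d.hv, hd⟩

noncomputable def φ (f : Cp XX) : Cp (OnePoint DD) := ⟨ph f.1, ph_cont f.1 f.2⟩

lemma φ_cont : Continuous φ := by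
  refine Continuous.subtype_mk (continuous_pi fun y => ?_) _
  have hc : ∀ p : XX, Continuous fun f : Cp XX => f.1 p := fun p =>
    (continuous_apply p).comp continuous_subtype_val
  induction y using OnePoint.rec with
  | infty => exact hc _
  | coe d => exact ((hc _).sub (hc _)).add (hc _)

lemma lift (k : OnePoint DD → ℝ) (hk : Continuous k) (F : Finset ℝ) :
    ∃ g : XX → ℝ, Continuous g ∧ ph g = k ∧ (∀ x ∈ F, g ⟨x, false⟩ = k ∞) ∧
      ∀ x, x ∉ Icc (0:ℝ) 1 → jump g x = 0 := by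
  set h : ℝ → ℝ := fun y => if hy : y ∈ Icc (0:ℝ) 1 then k (⟨y, hy⟩ : DD) - k ∞ else 0 with hh
  have h0 : ∀ ε > 0, {y | ε ≤ |h y|}.Finite := by
    intro ε hε
    have h1 := Metric.tendsto_nhds.mp ((OnePoint.continuous_iff_from_discrete k).mp hk) ε hε
    rw [Filter.eventually_cofinite] at h1
    refine (h1.image DD.v).subset ?_
    intro y hy
    simp only [Set.mem_ofPred_eq, hh] at hy
    split_ifs at hy with h2
    · exact ⟨⟨y, h2⟩, by simpa [Real.dist_eq] using hy, rfl⟩
    · simp at hy; linarith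
  obtain ⟨g0, hg0, hj⟩ := c0_jump h h0
  set c := Lagrange.interpolate (insert 0 F) id (fun x => g0 ⟨x, false⟩ - k ∞) with hc
  have hcv : ∀ x ∈ insert 0 F, c.eval x = g0 ⟨x, false⟩ - k ∞ := fun x hx =>
    Lagrange.eval_interpolate_at_node (s := insert 0 F) (v := id)
      (fun x => g0 ⟨x, false⟩ - k ∞) (fun _ _ _ _ h => h) hx
  have hjj : ∀ y, jump (fun p => g0 p - c.eval p.x) y = h y := by
    intro y
    rw [← hj]; simp only [jump]; ring
  refine ⟨fun p => g0 p - c.eval p.x, hg0.sub ((Polynomial.continuous _).comp x_cont), ?_,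
    fun x hx => ?_, fun x hx => ?_⟩
  · funext y
    induction y using OnePoint.rec with
    | infty =>
      rw [ph_inf]; simp only
      rw [hcv 0 (Finset.mem_insert_self _ _)]; ring
    | coe d =>
      rw [ph_coe, hjj]; simp only
      rw [hcv 0 (Finset.mem_insert_self _ _), hh]
      simp only [dif_pos d.hv]
      ring
  · simp only
    rw [hcv x (Finset.mem_insert_of_mem hx)]; ring
  · rw [hjj, hh]; simp only [dif_neg hx]

lemma φ_surj : Function.Surjective φ := by
  intro k
  obtain ⟨g, hg, h, _⟩ := lift k.1 k.2 ∅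
  exact ⟨⟨g, hg⟩, Subtype.ext h⟩

lemma nhds_Cp {X : Type} [TopologicalSpace X] (f : Cp X) (U : Set (Cp X)) (hU : U ∈ 𝓝 f) :
    ∃ I : Finset X, ∃ ε > 0, ∀ g : Cp X, (∀ p ∈ I, |g.1 p - f.1 p| < ε) → g ∈ U := by
  obtain ⟨V, hV, hVU⟩ := (mem_nhds_subtype _ _ _).mp hU
  rw [nhds_pi, Filter.mem_pi] at hV
  obtain ⟨I, hI, t, ht, hIt⟩ := hV
  have h1 : ∀ᶠ r in 𝓝 (0:ℝ), ∀ i ∈ I, Metric.ball (f.1 i) r ⊆ t i :=
    (Filter.eventually_all_finite hI).mpr fun i _ => eventually_ball_subset (ht i)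
  obtain ⟨ε, hε1, hε2⟩ := ((h1.filter_mono nhdsWithin_le_nhds).and
    (self_mem_nhdsWithin (s := Ioi (0:ℝ)) (a := 0))).exists
  refine ⟨hI.toFinset, ε, hε2, fun g hg => hVU (hIt fun i hi => hε1 i hi ?_)⟩
  rw [Metric.mem_ball, Real.dist_eq]
  exact hg i (hI.mem_toFinset.mpr hi)

lemma φ_open : IsOpenMap φ := by
  rw [isOpenMap_iff_nhds_le]
  intro f U hU
  obtain ⟨I, ε, hε, hI⟩ := nhds_Cp f _ hU
  have hc : ∀ y : OnePoint DD, ∀ᶠ k : Cp (OnePoint DD) in 𝓝 (φ f), |k.1 y - (φ f).1 y| < ε / 3 := by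
    intro y
    have : Continuous fun k : Cp (OnePoint DD) => k.1 y :=
      (continuous_apply y).comp continuous_subtype_val
    have h1 := Metric.tendsto_nhds.mp (this.tendsto (φ f)) (ε / 3) (by linarith)
    simpa [Real.dist_eq] using h1
  have h2 : ∀ᶠ k : Cp (OnePoint DD) in 𝓝 (φ f), ∀ p ∈ I, ∀ hp : p.x ∈ Icc (0:ℝ) 1,
      |k.1 (⟨p.x, hp⟩ : DD) - (φ f).1 (⟨p.x, hp⟩ : DD)| < ε / 3 := by
    rw [Filter.eventually_all_finset]
    intro p _
    by_cases hp : p.x ∈ Icc (0:ℝ) 1
    · filter_upwards [hc (⟨p.x, hp⟩ : DD)] with k hk _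
      exact hk
    · exact Filter.Eventually.of_forall fun k h => absurd h hp
  filter_upwards [hc ∞, h2] with k hk1 hk2
  obtain ⟨g, hg, hph, hg1, hg2⟩ := lift (fun y => k.1 y - (φ f).1 y) (k.2.sub (φ f).2)
    (I.image XX.x)
  have hmem : (⟨fun p => f.1 p + g p, f.2.add hg⟩ : Cp XX) ∈ φ ⁻¹' U := by
    refine hI _ fun p hp => ?_
    simp only [add_sub_cancel_left]
    have h3 := hg1 p.x (Finset.mem_image_of_mem _ hp)
    obtain ⟨x, b⟩ := p
    simp only at h3
    cases b with
    | false => rw [h3]; linarith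
    | true =>
      by_cases hx : x ∈ Icc (0:ℝ) 1
      · have h4 := congrFun hph (⟨x, hx⟩ : DD)
        have h5 := congrFun hph ∞
        rw [ph_coe] at h4
        rw [ph_inf] at h5
        have h6 := hk2 _ hp hx
        simp only [jump] at h4 h6
        have : g ⟨x, true⟩ = k.1 (⟨x, hx⟩ : DD) - (φ f).1 (⟨x, hx⟩ : DD) := by linarith
        rw [this]; linarith
      · have h4 := hg2 x hx
        simp only [jump] at h4
        have : g ⟨x, true⟩ = k.1 ∞ - (φ f).1 ∞ := by linarith
        rw [this]; linarith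
  have heq : φ ⟨fun p => f.1 p + g p, f.2.add hg⟩ = k := by
    apply Subtype.ext
    funext y
    have h4 := congrFun hph y
    induction y using OnePoint.rec with
    | infty =>
      simp only [φ, ph_inf] at h4 ⊢
      linarith
    | coe d =>
      simp only [φ, ph_coe, jump] at h4 ⊢
      linarith
  rw [mem_preimage, heq] at hmem
  exact hmem

lemma sep_X (A : Set XX) : ∃ D : Set A, D.Countable ∧ Dense D := by
  set S : Set ℝ := XX.x '' A with hS
  obtain ⟨E, hEc, hEd⟩ := TopologicalSpace.exists_countable_dense S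
  set B : Set ℝ := (Subtype.val '' E) ∪ ({x ∈ S | 𝓝[S ∩ Ioi x] x = ⊥} ∪ {x ∈ S | 𝓝[S ∩ Iio x] x = ⊥})
    with hB
  have hBc : B.Countable := (hEc.image _).union
    (countable_setOfPred_isolated_right_within.union countable_setOfPred_isolated_left_within)
  refine ⟨{a : A | a.1.x ∈ B}, ?_, ?_⟩
  · have hinj : Function.Injective (fun a : A => (a.1.x, a.1.b)) := by
      rintro ⟨⟨x, b⟩, h1⟩ ⟨⟨y, c⟩, h2⟩ h
      simp only [Prod.mk.injEq] at h
      obtain ⟨rfl, rfl⟩ := h
      rfl
    exact ((hBc.prod (countable_univ (α := Bool))).preimage_of_injOn hinj.injOn).mono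
      fun a ha => Set.mk_mem_prod ha (mem_univ _)
  · have key : ∀ (p : A) (T : Set ℝ), IsOpen T → (𝓝[S ∩ T] p.1.x).NeBot →
        (∀ β : ℝ → Bool, Tendsto (fun y => (⟨y, β y⟩ : XX)) (𝓝[T] p.1.x) (𝓝 p.1)) →
        p ∈ closure {a : A | a.1.x ∈ B} := by
      intro p T hT hne htend
      rw [mem_closure_iff_nhds]
      intro N hN
      obtain ⟨V, hV, hVN⟩ := (mem_nhds_subtype _ _ _).mp hN
      have h1 := (htend fun _ => true).eventually hV
      have h2 := (htend fun _ => false).eventually hV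
      obtain ⟨W, hWo, hWp, hW⟩ := mem_nhdsWithin.mp (h1.and h2)
      have h3 : W ∩ (S ∩ T) ∈ 𝓝[S ∩ T] p.1.x :=
        inter_mem (mem_nhdsWithin_of_mem_nhds (hWo.mem_nhds hWp)) self_mem_nhdsWithin
      obtain ⟨s, hsW, hsS, hsT⟩ := hne.nonempty_of_mem h3
      obtain ⟨d, hdE, hd⟩ := hEd.exists_mem_open (U := Subtype.val ⁻¹' (W ∩ T))
        ((hWo.inter hT).preimage continuous_subtype_val) ⟨⟨s, hsS⟩, hsW, hsT⟩
      obtain ⟨⟨y, c⟩, haA, hax⟩ := d.2
      simp only at hax
      have h4 := hW hd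
      refine ⟨⟨⟨y, c⟩, haA⟩, hVN ?_, Or.inl ⟨d, hdE, hax.symm⟩⟩
      rw [← hax] at h4
      cases c with
      | true => exact h4.1
      | false => exact h4.2
    intro p
    by_cases hp : p.1.x ∈ B
    · exact subset_closure hp
    have hpS : p.1.x ∈ S := ⟨p.1, p.2, rfl⟩
    obtain ⟨⟨x, b⟩, hA⟩ := p
    cases b with
    | true =>
      refine key _ (Ioi x) isOpen_Ioi ⟨fun h => hp (Or.inr (Or.inl ⟨hpS, h⟩))⟩ (tend_right x)
    | false =>
      refine key _ (Iio x) isOpen_Iio ⟨fun h => hp (Or.inr (Or.inr ⟨hpS, h⟩))⟩ (tend_left x)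

lemma hd_X : hd XX = Cardinal.aleph0 := by
  refine max_eq_left (ciSup_le' fun A => ?_)
  obtain ⟨D, hc, hd⟩ := sep_X A
  have h1 : dens A ≤ Cardinal.mk D := csInf_le' ⟨D, hd, rfl⟩
  exact h1.trans (Cardinal.le_aleph0_iff_set_countable.mpr hc)

lemma hd_Y : Cardinal.aleph0 < hd (OnePoint DD) := by
  set A : Set (OnePoint DD) := range (fun d : DD => (d : OnePoint DD)) with hA
  have h1 : Cardinal.aleph0 < dens A := by
    have hne : {c | ∃ D : Set A, Dense D ∧ Cardinal.mk D = c}.Nonempty :=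
      ⟨_, univ, dense_univ, rfl⟩
    obtain ⟨D, hD, hc⟩ := csInf_mem hne
    rw [dens, ← hc]
    by_contra hle
    have hDc : D.Countable := Cardinal.le_aleph0_iff_set_countable.mp (not_lt.mp hle)
    have hall : ∀ d : DD, (⟨d, d, rfl⟩ : A) ∈ D := by
      intro d
      have ho : IsOpen ({(d : OnePoint DD)} : Set (OnePoint DD)) := by
        rw [← image_singleton]
        exact OnePoint.isOpenEmbedding_coe.isOpenMap _ (isOpen_discrete _)
      obtain ⟨a, haD, ha⟩ := hD.exists_mem_open (ho.preimage continuous_subtype_val)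
        ⟨⟨d, d, rfl⟩, rfl⟩
      have : a = ⟨d, d, rfl⟩ := Subtype.ext ha
      rwa [← this]
    have hinj : Function.Injective (fun y : Icc (0:ℝ) 1 =>
        (⟨((⟨y.1, y.2⟩ : DD) : OnePoint DD), ⟨y.1, y.2⟩, rfl⟩ : A)) := by
      intro y z h
      have h1 := OnePoint.coe_injective (congrArg Subtype.val h)
      exact Subtype.ext (congrArg DD.v h1)
    have h2 : (univ : Set (Icc (0:ℝ) 1)).Countable :=
      (hDc.preimage_of_injOn hinj.injOn).mono fun y _ => hall _
    have h3 : (Icc (0:ℝ) 1).Countable := countable_coe_iff.mp (countable_univ_iff.mp h2)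
    have h4 := Cardinal.le_aleph0_iff_set_countable.mpr h3
    rw [Cardinal.mk_Icc_real zero_lt_one] at h4
    exact absurd h4 (not_le.mpr Cardinal.aleph0_lt_continuum)
  exact lt_max_of_lt_right (h1.trans_le (le_ciSup Cardinal.bddAbove_of_small A))

theorem result : ∃ (X Y : Type) (_ : TopologicalSpace X) (_ : TopologicalSpace Y),
    T35Space X ∧ T35Space Y ∧ ∃ φ : Cp X → Cp Y,
      Continuous φ ∧ Function.Surjective φ ∧ IsOpenMap φ ∧ hd X < hd Y :=
  ⟨XX, OnePoint DD, inferInstance, inferInstance, t35X, inferInstance, φ, φ_cont, φ_surj, φ_open,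
    hd_X ▸ hd_Y⟩

end Pool.Agent.Results.MP_4cc686_gt.OpenImage
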